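import Pool.Agent.H321Z.MR.Reduce

set_option autoImplicit false

open Set Filter Topology

namespace Pool.Agent.Results.MP_48dd86_gt.ANonDowker

/-- Every countable open cover has a point-finite open refinement. -/
def CountablyMetacompact (Z : Type) [TopologicalSpace Z] : Prop :=
  ∀ U : ℕ → Set Z, (∀ n, IsOpen (U n)) → ⋃ n, U n = univ →
    ∃ (ι : Type) (V : ι → Set Z), (∀ i, IsOpen (V i)) ∧ ⋃ i, V i = univ ∧
      (∀ i, ∃ n, V i ⊆ U n) ∧ ∀ z, {i | z ∈ V i}.Finite

/-- A perfect image `Y` of a subspace `X` of `c_0(Γ)` with the pointwise topology embeds into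
some `c_0(Γ')` with the pointwise topology as soon as `X` or `Y` is normal and countably
metacompact. -/
theorem result :
    ∀ (X Y : Type) [TopologicalSpace X] [TopologicalSpace Y],
      ((NormalSpace X ∧ CountablyMetacompact X) ∨ (NormalSpace Y ∧ CountablyMetacompact Y)) →
      (∃ (Γ : Type) (e : X → (Γ → ℝ)),
          Topology.IsEmbedding e ∧ ∀ x, Tendsto (e x) cofinite (𝓝 0)) →
      ∀ f : X → Y, IsProperMap f → Function.Surjective f →
        ∃ (Γ' : Type) (g : Y → (Γ' → ℝ)),
          Topology.IsEmbedding g ∧ ∀ y, Tendsto (g y) cofinite (𝓝 0) := by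
  intro X Y _ _ h ⟨Γ, e, he, h0⟩ f hf hs
  obtain ⟨S⟩ := Pool.Agent.H321Z.MR.exists_setting e he h0 f hf hs
  have := Pool.Agent.H321Z.MR.t1_image e he f hf hs
  rcases h with ⟨h1, h2⟩ | ⟨h1, h2⟩
  · have := Pool.Agent.H321Z.MR.normal_image hf.continuous hf.isClosedMap hs
    exact S.embeds ((Pool.Agent.H321Z.MR.shrink_of_cm h2).image hf.continuous hf.isClosedMap hs)
  · exact S.embeds (Pool.Agent.H321Z.MR.shrink_of_cm h2)

end Pool.Agent.Results.MP_48dd86_gt.ANonDowker
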